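import Pool.Agent.TH839.LD.Stm

/-!
# Vertical integration from infinity
-/

set_option autoImplicit false

open Complex Filter Topology Set

namespace Pool.Agent.TH126.LD

/-- one integration from infinity -/
theorem step {φ φ' : ℝ → ℂ} {K c : ℝ} (hc : 0 < c) (hK : 0 ≤ K)
    (hd : ∀ t : ℝ, HasDerivAt φ (φ' t) t)
    (hb : ∀ t : ℝ, 0 ≤ t → ‖φ' t‖ ≤ K * Real.exp (-(c * t)))
    (hlim : Tendsto φ atTop (𝓝 0)) (v : ℝ) (hv : 0 ≤ v) :
    ‖φ v‖ ≤ K / c * Real.exp (-(c * v)) := by
  have hB : ∀ t : ℝ, HasDerivAt (fun t : ℝ => K / c * (Real.exp (-(c * v)) - Real.exp (-(c * t))))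
      (K * Real.exp (-(c * t))) t := by
    intro t
    have h1 : HasDerivAt (fun t : ℝ => -(c * t)) (-c) t := by
      have h := (hasDerivAt_id t).const_mul (-c)
      rw [mul_one] at h
      refine h.congr_of_eventuallyEq (Filter.Eventually.of_forall fun y => ?_)
      show -(c * y) = -c * y
      ring
    have h2 := ((h1.exp).const_sub (Real.exp (-(c * v)))).const_mul (K / c)
    refine h2.congr_deriv ?_
    field_simp
  have key : ∀ w : ℝ, v ≤ w → ‖φ w - φ v‖ ≤ K / c * Real.exp (-(c * v)) := by
    intro w hw
    have h1 := image_norm_le_of_norm_deriv_right_le_deriv_boundary (a := v) (b := w)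
      (f := fun t => φ t - φ v) (f' := φ')
      (B := fun t : ℝ => K / c * (Real.exp (-(c * v)) - Real.exp (-(c * t))))
      (B' := fun t : ℝ => K * Real.exp (-(c * t)))
      (fun t _ => ((hd t).sub_const (φ v)).continuousAt.continuousWithinAt)
      (fun t _ => ((hd t).sub_const (φ v)).hasDerivWithinAt) (by simp) hB
      (fun t ht => hb t (hv.trans ht.1)) (right_mem_Icc.2 hw)
    refine h1.trans ?_
    have h2 : 0 ≤ K / c := by positivity
    have h3 := Real.exp_pos (-(c * w))
    apply mul_le_mul_of_nonneg_left _ h2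
    linarith
  have h1 : Tendsto (fun w => ‖φ w - φ v‖) atTop (𝓝 ‖(0 : ℂ) - φ v‖) := (hlim.sub_const _).norm
  rw [zero_sub, norm_neg] at h1
  exact le_of_tendsto h1 (by filter_upwards [eventually_ge_atTop v] with w hw using key w hw)

theorem vint : Pool.Agent.TH839.LD.S_VINT := by
  intro X n s e M c hX he hc hM hlim hb
  have key : ∀ j ≤ n, ∀ v : ℝ, 0 ≤ v →
      ‖iteratedDeriv (n - j) X (s + v * e)‖ ≤ M / c ^ j * Real.exp (-(c * v)) := by
    intro j
    induction j with
    | zero =>
      intro _ v hv
      simpa using hb v hv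
    | succ j ih =>
      intro hj v hv
      have ih' := ih (by omega)
      have hk : n - j = (n - (j + 1)) + 1 := by omega
      set k := n - (j + 1) with hkd
      rw [hk] at ih'
      have hXk : Differentiable ℂ (iteratedDeriv k X) :=
        (hX.contDiff (n := ⊤)).differentiable_iteratedDeriv k (by exact_mod_cast WithTop.coe_lt_top _)
      have hd : ∀ t : ℝ, HasDerivAt (fun v : ℝ => iteratedDeriv k X (s + v * e))
          (iteratedDeriv (k + 1) X (s + t * e) * e) t := by
        intro t
        have h1 : HasDerivAt (iteratedDeriv k X) (iteratedDeriv (k + 1) X (s + t * e))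
            (s + (t : ℂ) * e) := by
          rw [iteratedDeriv_succ]
          exact (hXk _).hasDerivAt
        have h2 : HasDerivAt (fun v : ℝ => s + (v : ℂ) * e) e t := by
          have h3 := (((hasDerivAt_id t).ofReal_comp).mul_const e).const_add s
          simpa using h3
        exact h1.comp t h2
      have h1 := step (K := M / c ^ j) hc (by positivity) hd (by
        intro t ht
        rw [norm_mul, he, mul_one]
        exact ih' t ht) (hlim k (by omega)) v hv
      refine h1.trans (le_of_eq ?_)
      rw [pow_succ, div_div]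
  have h1 := key n le_rfl 0 le_rfl
  rw [Nat.sub_self, iteratedDeriv_zero] at h1
  simpa using h1

end Pool.Agent.TH126.LD
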